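import Mathlib

set_option autoImplicit false

namespace Pool.Agent.H.MP_75c11f_co

/-- `L(k,k)`: sequences `0 ≤ x₁ ≤ … ≤ x_k ≤ k`, ordered componentwise -/
abbrev L (k : ℕ) : Type := {f : Fin k → Fin (k + 1) // Monotone f}

open Classical in
/-- the number of unordered comparable pairs of distinct elements of `U`, each counted as the
pair `(smaller, larger)` -/
noncomputable def e {k : ℕ} (U : Finset (L k)) : ℕ := ((U ×ˢ U).filter fun p => p.1 < p.2).card

end Pool.Agent.H.MP_75c11f_co
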