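import Mathlib
import Pool.Agent.H.MP_269158_co.Key

set_option autoImplicit false

namespace Pool.Agent.H.MP_75c11f_co

open Finset Pool.Agent.H.MP_269158_co

/-! outer part -/

lemma fa_ofFn {h : ℕ} {z z' : Fin h → Bool × Bool} :
    List.Forall₂ St (List.ofFn z) (List.ofFn z') ↔ ∀ i, St (z i) (z' i) := by
  rw [List.forall₂_iff_get]
  simp only [List.length_ofFn, true_and, List.get_eq_getElem, List.getElem_ofFn]
  exact ⟨fun a i => a i i.2 i.2, fun a i _ _ => a _⟩

lemma cnt_ofFn {h : ℕ} (f : Fin h → Bool) : cnt (List.ofFn f) = ∑ i, (f i).toNat := by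
  induction h with
  | zero => simp
  | succ h ih => rw [List.ofFn_succ, cnt_cons, ih, Fin.sum_univ_succ]

lemma cnt_perm {h : ℕ} (z : Fin h → Bool × Bool) (g : Bool × Bool → Bool) (σ : Equiv.Perm (Fin h)) :
    cnt ((List.ofFn (z ∘ σ)).map g) = cnt ((List.ofFn z).map g) := by
  rw [List.map_ofFn, List.map_ofFn, cnt_ofFn, cnt_ofFn]
  exact Equiv.sum_comp σ fun i => (g (z i)).toNat

lemma lev_perm {h : ℕ} (z : Fin h → Bool × Bool) (σ : Equiv.Perm (Fin h)) :
    lev (List.ofFn (z ∘ σ)) = lev (List.ofFn z) := by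
  rw [lev, lev, cnt_perm, cnt_perm]

def wt (z : Z) : ℕ := cnt (z.map Prod.fst) + cnt (z.map Prod.snd)

lemma wt_ko (z : Z) : wt (ko z) = wt z := by
  induction z with
  | nil => rfl
  | cons p z ih =>
    simp only [wt, ko, List.map_cons, cnt_cons] at ih ⊢
    split_ifs with h
    · rw [h.1]; simp; omega
    · omega

lemma ko_st {h : ℕ} {z z' : Fin h → Bool × Bool} {σ : Equiv.Perm (Fin h)}
    (e : ko (List.ofFn (z ∘ σ)) = ko (List.ofFn (z' ∘ σ)))
    (l : lev (List.ofFn z) ≤ lev (List.ofFn z')) (i : Fin h) : St (z i) (z' i) := by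
  have := fa_ofFn.1 (ko_chain _ _ e (by rwa [lev_perm, lev_perm])) (σ.symm i)
  simpa using this

def low {h : ℕ} (z : Fin h → Bool × Bool) : ℕ := #{i | z i = (true, false)}

lemma perm_aux {h : ℕ} {z z' : Fin h → Bool × Bool} (hne : z ≠ z') (s : ∀ i, St (z i) (z' i)) :
    low z' * #{σ : Equiv.Perm (Fin h) | ko (List.ofFn (z ∘ σ)) = ko (List.ofFn (z' ∘ σ))} ≤
      Fintype.card (Equiv.Perm (Fin h)) := by
  obtain ⟨i, hi⟩ := Function.ne_iff.1 hne
  obtain ⟨a, b⟩ := (s i).resolve_left hi
  rw [low, ← card_product, ← card_univ]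
  refine card_le_card_of_injOn (fun p => Equiv.swap i p.1 * p.2) (fun _ _ => mem_univ _) ?_
  rintro ⟨j, σ⟩ h1 ⟨j', σ'⟩ h2 e
  simp only [coe_product, Set.mem_prod, coe_filter, mem_univ, true_and, Set.mem_ofPred_eq]
    at h1 h2 e
  have fix : ∀ j, z' j = (true, false) → z ∘ Equiv.swap i j = z := fun j hj => by
    have c : z j = (true, false) := (s j).elim (fun c => c.trans hj) And.left
    funext t
    simp only [Function.comp, Equiv.swap_apply_def]
    split_ifs with p q
    · rw [p, a, c]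
    · rw [q, a, c]
    · rfl
  have e1 : σ = Equiv.swap i j * (Equiv.swap i j * σ) := by simp [← mul_assoc]
  have e2 : σ' = Equiv.swap i j' * (Equiv.swap i j * σ) := by rw [e]; simp [← mul_assoc]
  generalize Equiv.swap i j * σ = τ at e1 e2
  have k1 := h1.2
  have k2 := h2.2
  rw [e1, Equiv.Perm.coe_mul, ← Function.comp_assoc, ← Function.comp_assoc, fix j h1.1] at k1
  rw [e2, Equiv.Perm.coe_mul, ← Function.comp_assoc, ← Function.comp_assoc, fix j' h2.1] at k2
  have k3 := ko_st (k1.symm.trans k2) (by rw [lev_perm, lev_perm]) j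
  obtain rfl : j = j' := by
    by_contra c
    have d : j ≠ i := fun d => by rw [d, b] at h1; simp at h1
    simp [St, Equiv.swap_apply_of_ne_of_ne d c, b, h1.1] at k3
  rw [e1, e2]

lemma perm_bound {h ℓ : ℕ} {z z' : Fin h → Bool × Bool} (hne : z ≠ z') (l : ℓ ≤ low z)
    (l' : ℓ ≤ low z') :
    ℓ * #{σ : Equiv.Perm (Fin h) | ko (List.ofFn (z ∘ σ)) = ko (List.ofFn (z' ∘ σ))} ≤
      Fintype.card (Equiv.Perm (Fin h)) := by
  by_cases c : ∃ σ : Equiv.Perm (Fin h), ko (List.ofFn (z ∘ σ)) = ko (List.ofFn (z' ∘ σ))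
  · obtain ⟨σ, c⟩ := c
    rcases le_total (lev (List.ofFn z)) (lev (List.ofFn z')) with a | a
    · exact (Nat.mul_le_mul_right _ l').trans (perm_aux hne (ko_st c a))
    · simp only [eq_comm (a := ko (List.ofFn (z ∘ _)))]
      exact (Nat.mul_le_mul_right _ l).trans (perm_aux hne.symm (ko_st c.symm a))
  · rw [card_eq_zero.2 (filter_eq_empty_iff.2 fun σ _ d => c ⟨σ, d⟩)]
    simp

lemma few_low (h ℓ : ℕ) :
    #{z : Fin h → Bool × Bool | low z < ℓ} * 2 ^ h ≤ 7 ^ h * 2 ^ ℓ := by
  have a : ∑ z : Fin h → Bool × Bool, ∏ i, (if z i = (true, false) then 1 else 2) = 7 ^ h := by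
    rw [← Fintype.piFinset_univ, ← prod_univ_sum (fun _ => univ)
      fun _ p => if p = (true, false) then 1 else 2]
    simp [Fintype.sum_prod_type]
  rw [← a, sum_mul, ← smul_eq_mul]
  refine (card_nsmul_le_sum _ _ _ fun z hz => ?_).trans
    (sum_le_sum_of_subset (filter_subset _ _))
  rw [prod_ite, prod_const_one, one_mul, prod_const, ← pow_add]
  refine Nat.pow_le_pow_right two_pos ?_
  have b := card_filter_add_card_filter_not (s := (univ : Finset (Fin h)))
    fun i => z i = (true, false)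
  have c := (mem_filter.1 hz).2
  rw [card_univ, Fintype.card_fin] at b
  rw [low] at c
  omega

lemma lev_abs (z : Z) : -(z.length : ℤ) ≤ lev z ∧ lev z ≤ z.length := by
  have a := cnt_le (z.map Prod.fst)
  have b := cnt_le (z.map Prod.snd)
  rw [List.length_map] at a b
  rw [lev]
  omega

/-! middle part -/

lemma cs_mono : ∀ u u' : List Bool, u.length = u'.length → (∀ t, H u t ≤ H u' t) →
    cs u ≤ cs u' ∧ (cs u = cs u' → u = u')
  | [], [], _, _ => by simp
  | [], _ :: _, h, _ => by simp at h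
  | _ :: _, [], h, _ => by simp at h
  | b :: l, b' :: l', h, e => by
    obtain ⟨a, c⟩ := cs_mono l l' (by simpa using h) fun t => by simpa using e (t + 1)
    have d := e 0
    rw [H_zero, H_zero] at d
    rw [cs, cs]
    refine ⟨by omega, fun f => ?_⟩
    obtain rfl := c (by omega)
    have g : cnt (b :: l) = cnt (b' :: l) := by omega
    cases b <;> cases b' <;> simp_all

def cand : List Bool → List Bool → List Bool
  | a :: u, a' :: u' => if a = a' then a :: cand u u' else a' :: a :: u
  | _, _ => []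

lemma cand_eq (k₁ : List Bool) : ∀ (l₁ l₂ k₂ : List Bool) (b b' : Bool),
    l₁ ++ b :: l₂ = k₁ ++ b' :: k₂ → l₁.length ≤ k₁.length → l₁ ++ l₂ ≠ k₁ ++ k₂ →
    l₁ ++ b :: l₂ = cand (l₁ ++ l₂) (k₁ ++ k₂) := by
  induction k₁ with
  | nil =>
    intro l₁ l₂ k₂ b b' e h n
    obtain rfl : l₁ = [] := by simpa using h
    exact absurd (List.cons.inj e).2 n
  | cons c k₁ ih =>
    intro l₁ l₂ k₂ b b' e h n
    cases l₁ with
    | cons a l₁ =>
      obtain ⟨rfl, e'⟩ := List.cons.inj e
      simp only [List.cons_append, cand, if_true]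
      rw [← ih l₁ l₂ k₂ b b' e' (by simpa using h) (by simpa using n)]
    | nil =>
      obtain ⟨rfl, e'⟩ := List.cons.inj e
      cases l₂ with
      | nil => simp at e'
      | cons a u =>
        simp only [List.nil_append, List.cons_append, cand]
        split_ifs with d
        · subst d
          have := ih [] u k₂ a b' e' (by simp) (by simpa using n)
          simp only [List.nil_append] at this
          rw [← this]
        · rfl

/-- a family of chain partitions of the words of length `m` -/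
lemma middle2 (m : ℕ) : ∃ k : ℕ → List Bool → List Bool × Bool,
    (∀ a < m + 2, ∀ u, u.length = m → (k a u).1.length = m + 1 ∧ cs (k a u).1 % (m + 2) = a ∧
      cnt (k a u).1 = cnt u + (k a u).2.toNat ∧ cs u ≤ cs (k a u).1 ∧
      cs (k a u).1 ≤ cs u + (m + 1)) ∧
    (∀ a < m + 2, ∀ u u', u.length = m → u'.length = m → k a u = k a u' → Near u u') ∧
    ∀ u u', u.length = m → u'.length = m → u ≠ u' →
      #{a ∈ range (m + 2) | k a u = k a u'} ≤ 2 := by
  have h : ∀ (a : ℕ) (u : List Bool), ∃ l l' b, a < m + 2 → u.length = m → u = l ++ l' ∧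
      cs (l ++ b :: l') % (m + 2) = a := fun a u => by
    by_cases hu : a < m + 2 ∧ u.length = m
    · obtain ⟨l, l', b, e⟩ := cover u a (by omega)
      exact ⟨l, l', b, fun _ _ => hu.2 ▸ e⟩
    · exact ⟨[], [], true, fun e e' => absurd ⟨e, e'⟩ hu⟩
  choose l l' b hl using h
  refine ⟨fun a u => (l a u ++ b a u :: l' a u, b a u), fun a ha u hu => ?_,
    fun a ha u u' hu hu' e => ?_, fun u u' hu hu' n => ?_⟩
  · obtain ⟨c, d⟩ := hl a u ha hu
    have f := cs_ins (l a u) (l' a u) (b a u)
    have g := congrArg List.length c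
    have i := congrArg cnt c
    have j := cnt_le (l' a u)
    rw [← c] at f
    simp only [List.length_append, List.length_cons, cnt_append, cnt_cons] at g i ⊢
    refine ⟨by omega, d, by omega, by omega, ?_⟩
    rw [f]
    cases b a u <;> simp <;> omega
  · obtain ⟨e1, e2⟩ := Prod.mk.inj e
    rw [(hl a u ha hu).1, (hl a u' ha hu').1]
    rw [e2] at e1
    exact near e1
  · refine (card_le_card (t := {cs (cand u u') % (m + 2), cs (cand u' u) % (m + 2)})
      fun a ha => ?_).trans card_le_two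
    obtain ⟨ha, e⟩ := mem_filter.1 ha
    obtain ⟨c, d⟩ := hl a u (mem_range.1 ha) hu
    obtain ⟨c', d'⟩ := hl a u' (mem_range.1 ha) hu'
    obtain ⟨e1, -⟩ := Prod.mk.inj e
    rw [mem_insert, mem_singleton]
    rcases le_total (l a u).length (l a u').length with f | f
    · left
      rw [cand_eq _ _ _ _ _ _ e1 f (by rwa [← c, ← c']), ← c, ← c'] at d
      exact d.symm
    · right
      rw [cand_eq _ _ _ _ _ _ e1.symm f (by rw [← c, ← c']; exact n.symm), ← c, ← c'] at d'
      exact d'.symm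

lemma near2 {m : ℕ} {u u' w w' : List Bool} (hu : u.length = m) (hu' : u'.length = m)
    (c : cnt w = cnt w') (a : ∀ t, H u t ≤ H u' t + 1) (b : ∀ t, H w t ≤ H w' t + 1) (t : ℕ) :
    H (u ++ w) t ≤ H (u' ++ w') t + 1 := by
  rw [H_append, H_append, hu, hu']
  rcases le_total t m with h | h
  · have := a t
    rw [Nat.sub_eq_zero_of_le h, H_zero, H_zero]
    omega
  · have := b (t - m)
    rw [H_big u t (by omega), H_big u' t (by omega)]
    omega

end Pool.Agent.H.MP_75c11f_co
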