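import Mathlib
import Pool.Agent.H.MP_75c11f_co.Parts

set_option autoImplicit false

namespace Pool.Agent.H.MP_75c11f_co

open Finset Pool.Agent.H.MP_269158_co

/-- outer part and two middle parts -/
abbrev W (h : ℕ) : Type := (Fin h → Bool × Bool) × List Bool × List Bool

def word {h : ℕ} (x : W h) : List Bool := glue (List.ofFn x.1) (x.2.1 ++ x.2.2)

abbrev Ky : Type := (List Bool × Bool) × Z × (List Bool × Bool) × ℤ

def key {h : ℕ} (m : ℕ) (k : ℕ → List Bool → List Bool × Bool)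
    (ω : Equiv.Perm (Fin h) × ℕ × ℕ) (x : W h) : Ky :=
  (k ω.2.1 x.2.1, ko (List.ofFn (x.1 ∘ ω.1)), k ω.2.2 x.2.2,
    (((cs (k ω.2.1 x.2.1).1 : ℤ) - cs x.2.1) - (cs (k ω.2.2 x.2.2).1 - cs x.2.2) +
      lev (List.ofFn x.1)) % (2 * m + 3))

def Cmp {h : ℕ} (x y : W h) : Prop :=
  (∀ t, H (word x) t ≤ H (word y) t) ∨ ∀ t, H (word y) t ≤ H (word x) t

lemma small {a b n : ℤ} (h : a % n = b % n) (h1 : a - b < n) (h2 : b - a < n) : a = b := by
  obtain ⟨c, hc⟩ := Int.ModEq.dvd h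
  have n0 : 0 < n := by omega
  have : c = 0 := by
    rcases lt_trichotomy c 0 with d | d | d
    · nlinarith
    · exact d
    · nlinarith
  rw [this] at hc
  omega

section
variable {h m : ℕ} {k : ℕ → List Bool → List Bool × Bool}
  (k1 : ∀ a < m + 2, ∀ u, u.length = m → (k a u).1.length = m + 1 ∧ cs (k a u).1 % (m + 2) = a ∧
      cnt (k a u).1 = cnt u + (k a u).2.toNat ∧ cs u ≤ cs (k a u).1 ∧
      cs (k a u).1 ≤ cs u + (m + 1))
  (k2 : ∀ a < m + 2, ∀ u u', u.length = m → u'.length = m → k a u = k a u' → Near u u')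
  (k3 : ∀ u u', u.length = m → u'.length = m → u ≠ u' →
      #{a ∈ range (m + 2) | k a u = k a u'} ≤ 2)
include k1 k2

lemma key_eq (hm : h ≤ m + 1) {σ : Equiv.Perm (Fin h)} {a b : ℕ} (ha : a < m + 2)
    (hb : b < m + 2) {x y : W h} (x1 : x.2.1.length = m) (x2 : x.2.2.length = m)
    (y1 : y.2.1.length = m) (y2 : y.2.2.length = m) (hne : x ≠ y)
    (e : key m k (σ, a, b) x = key m k (σ, a, b) y) :
    Cmp x y ∧ (x.1 = y.1 → x.2.1 ≠ y.2.1 ∧ x.2.2 ≠ y.2.2) ∧ (x.2.1 ≠ y.2.1 ∨ x.2.2 ≠ y.2.2) := by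
  obtain ⟨z, u, w⟩ := x
  obtain ⟨z', u', w'⟩ := y
  simp only [key, Prod.mk.injEq] at e x1 x2 y1 y2 ⊢
  obtain ⟨e1, e2, e3, e4⟩ := e
  obtain ⟨-, -, -, p1, p2⟩ := k1 a ha u x1
  obtain ⟨-, -, -, p3, p4⟩ := k1 a ha u' y1
  obtain ⟨-, -, -, q1, q2⟩ := k1 b hb w x2
  obtain ⟨-, -, -, q3, q4⟩ := k1 b hb w' y2
  obtain ⟨n1, n2, n3, n4⟩ := k2 a ha u u' x1 y1 e1
  obtain ⟨o1, o2, o3, o4⟩ := k2 b hb w w' x2 y2 e3
  rw [e1] at p1 p2
  rw [e3] at q1 q2
  rw [e1, e3] at e4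
  have hl : (u ++ w).length = (u' ++ w').length := by simp [*]
  have hc : cnt (u ++ w) = cnt (u' ++ w') := by simp [*]
  have la := lev_abs (List.ofFn z)
  have lb := lev_abs (List.ofFn z')
  rw [List.length_ofFn] at la lb
  have ne : lev (List.ofFn z) ≠ lev (List.ofFn z') → (z = z' → u ≠ u' ∧ w ≠ w') ∧
      (u ≠ u' ∨ w ≠ w') := fun c => by
    refine ⟨fun d => absurd (by rw [d]) c, ?_⟩
    by_contra d
    push Not at d
    rw [d.1, d.2] at e4
    have := small e4 (by omega) (by omega)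
    omega
  rcases lt_trichotomy (lev (List.ofFn z)) (lev (List.ofFn z')) with c | c | c
  · have f := fa_ofFn.2 (ko_st e2 c.le)
    have sf := (St_facts f).1
    refine ⟨.inl (glue_le f hl hc fun t => ?_), ne c.ne⟩
    have := near2 x1 y1 o1 n2 o2 t
    simp only [lev] at c ⊢
    omega
  · obtain rfl : z = z' := by
      funext i
      have s := ko_st e2 c.le i
      have s' := ko_st e2.symm c.ge i
      rcases s with s | s
      · exact s
      · simp [St, s.1, s.2] at s'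
    have f := fa_ofFn.2 fun i => (.inl rfl : St (z i) (z i))
    have d := small e4 (by omega) (by omega)
    have m1 := cs_mono u u' (by omega)
    have m2 := cs_mono u' u (by omega)
    have m3 := cs_mono w w' (by omega)
    have m4 := cs_mono w' w (by omega)
    have nu : u ≠ u' := by
      rintro rfl
      exact hne (by rw [o4.elim (fun g => (m3 g).2 (by omega)) fun g => ((m4 g).2 (by omega)).symm])
    have nw : w ≠ w' := by
      rintro rfl
      exact nu (n4.elim (fun g => (m1 g).2 (by omega)) fun g => ((m2 g).2 (by omega)).symm)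
    refine ⟨?_, fun _ => ⟨nu, nw⟩, .inl nu⟩
    rcases n4 with g | g <;> rcases o4 with j | j
    · refine .inl (glue_le f hl hc fun t => ?_)
      rw [H_append, H_append, x1, y1]
      exact Nat.add_le_add_right (Nat.add_le_add (g _) (j _)) _
    · have := (m1 g).1
      have := (m4 j).1
      exact absurd ((m1 g).2 (by omega)) nu
    · have := (m2 g).1
      have := (m3 j).1
      exact absurd ((m2 g).2 (by omega)).symm nu
    · refine .inr (glue_le f hl.symm hc.symm fun t => ?_)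
      rw [H_append, H_append, x1, y1]
      exact Nat.add_le_add_right (Nat.add_le_add (g _) (j _)) _
  · have f := fa_ofFn.2 (ko_st e2.symm c.le)
    have sf := (St_facts f).1
    refine ⟨.inr (glue_le f hl.symm hc.symm fun t => ?_), ne c.ne'⟩
    have := near2 y1 x1 o1.symm n3 o3 t
    simp only [lev] at c ⊢
    omega

include k3 in
lemma pair_bound (hm : h ≤ m + 1) {ℓ : ℕ} (hℓ : 2 * ℓ ≤ m + 2) {x y : W h}
    (x1 : x.2.1.length = m) (x2 : x.2.2.length = m)
    (y1 : y.2.1.length = m) (y2 : y.2.2.length = m) (hne : x ≠ y) (lx : ℓ ≤ low x.1)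
    (ly : ℓ ≤ low y.1) :
    ℓ * #{ω ∈ (univ : Finset (Equiv.Perm (Fin h))) ×ˢ range (m + 2) ×ˢ range (m + 2) |
      key m k ω x = key m k ω y} ≤ Fintype.card (Equiv.Perm (Fin h)) * (2 * (m + 2)) := by
  have sub : {ω ∈ (univ : Finset (Equiv.Perm (Fin h))) ×ˢ range (m + 2) ×ˢ range (m + 2) |
      key m k ω x = key m k ω y} ⊆
      (univ.filter fun σ : Equiv.Perm (Fin h) =>
        ko (List.ofFn (x.1 ∘ σ)) = ko (List.ofFn (y.1 ∘ σ))) ×ˢ
      {a ∈ range (m + 2) | k a x.2.1 = k a y.2.1} ×ˢ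
      {a ∈ range (m + 2) | k a x.2.2 = k a y.2.2} := by
    rintro ⟨σ, a, b⟩
    simp only [key, mem_filter, mem_product, mem_univ, true_and, Prod.mk.injEq]
    tauto
  have c := card_le_card sub
  rw [card_product, card_product] at c
  rcases eq_empty_or_nonempty {ω ∈ (univ : Finset (Equiv.Perm (Fin h))) ×ˢ range (m + 2) ×ˢ
    range (m + 2) | key m k ω x = key m k ω y} with e | ⟨⟨σ, a, b⟩, e⟩
  · simp [e]
  simp only [mem_filter, mem_product, mem_range] at e
  obtain ⟨-, e1, e2⟩ := key_eq k1 k2 hm e.1.2.1 e.1.2.2 x1 x2 y1 y2 hne e.2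
  have r1 : #{a ∈ range (m + 2) | k a x.2.1 = k a y.2.1} ≤ m + 2 :=
    (card_filter_le _ _).trans (card_range _).le
  have r2 : #{a ∈ range (m + 2) | k a x.2.2 = k a y.2.2} ≤ m + 2 :=
    (card_filter_le _ _).trans (card_range _).le
  refine (Nat.mul_le_mul_left _ c).trans ?_
  by_cases d : x.1 = y.1
  · have s := Nat.mul_le_mul (k3 _ _ x1 y1 (e1 d).1) (k3 _ _ x2 y2 (e1 d).2)
    have t := Nat.mul_le_mul (card_le_univ ({σ : Equiv.Perm (Fin h) |
      ko (List.ofFn (x.1 ∘ σ)) = ko (List.ofFn (y.1 ∘ σ))} : Finset _)) s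
    refine (Nat.mul_le_mul_left _ t).trans ?_
    nlinarith [Nat.mul_le_mul_left (Fintype.card (Equiv.Perm (Fin h))) hℓ]
  · rw [← mul_assoc]
    refine Nat.mul_le_mul (perm_bound d lx ly) ?_
    rcases e2 with s | s
    · exact Nat.mul_le_mul (k3 _ _ x1 y1 s) r2
    · rw [mul_comm]
      exact Nat.mul_le_mul (k3 _ _ x2 y2 s) r1

end

lemma img {α κ : Type} [DecidableEq α] [DecidableEq κ] (V : Finset α) (f : α → κ) :
    #V ≤ #(V.image f) + #{p ∈ V ×ˢ V | p.1 ≠ p.2 ∧ f p.1 = f p.2} := by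
  induction V using Finset.induction_on with
  | empty => simp
  | insert a V ha ih =>
    have s : {p ∈ V ×ˢ V | p.1 ≠ p.2 ∧ f p.1 = f p.2} ⊆
        {p ∈ insert a V ×ˢ insert a V | p.1 ≠ p.2 ∧ f p.1 = f p.2} :=
      filter_subset_filter _ (product_subset_product (subset_insert _ _) (subset_insert _ _))
    rw [card_insert_of_notMem ha, image_insert]
    by_cases c : f a ∈ V.image f
    · obtain ⟨b, hb, e⟩ := mem_image.1 c
      have := card_lt_card ((ssubset_iff_of_subset s).2 ⟨(a, b), by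
        simp only [mem_filter, mem_product, mem_insert, true_or, hb, or_true, true_and, e, and_true]
        rintro rfl
        exact ha hb, by simp [ha]⟩)
      rw [insert_eq_of_mem c]
      omega
    · have := card_le_card s
      rw [card_insert_of_notMem c]
      omega

open Classical in
lemma core (h m ℓ n : ℕ) (hm : h ≤ m + 1) (hℓ : 2 * ℓ ≤ m + 2) (V : Finset (W h))
    (hV : ∀ x ∈ V, x.2.1.length = m ∧ x.2.2.length = m ∧ ℓ ≤ low x.1 ∧ cnt (word x) = n) :
    ℓ * ((m + 2) ^ 2 * #V) ≤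
      ℓ * ((m + 1).choose ((m + 1) / 2) * (16 * (2 * h).choose h * 2 ^ m * (2 * m + 3))) +
      2 * (m + 2) * #{p ∈ V ×ˢ V | p.1 ≠ p.2 ∧ Cmp p.1 p.2} := by
  obtain ⟨k, k1, k2, k3⟩ := middle2 m
  obtain ⟨K, hK, mK⟩ := outer h
  let T : Finset Ky := {q ∈ (all (m + 1) ×ˢ univ) ×ˢ K ×ˢ (all (m + 1) ×ˢ univ) ×ˢ
    Ico (0 : ℤ) (2 * m + 3) | cnt q.1.1 + wt q.2.1 + cnt q.2.2.1.1 =
      n + q.1.2.toNat + q.2.2.1.2.toNat}
  have hT : #T ≤ (m + 1).choose ((m + 1) / 2) * (16 * (2 * h).choose h * 2 ^ m * (2 * m + 3)) := by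
    refine (card_le_mul_card_image_of_maps_to (f := fun q : Ky => (q.1.2, q.2))
      (t := univ ×ˢ K ×ˢ (all (m + 1) ×ˢ univ) ×ˢ Ico (0 : ℤ) (2 * m + 3))
      (fun q hq => mem_product.2 ⟨mem_univ _, (mem_product.1 (mem_filter.1 hq).1).2⟩)
      ((m + 1).choose ((m + 1) / 2)) fun r _ => ?_).trans (Nat.mul_le_mul_left _ ?_)
    · refine le_trans ?_ (Nat.choose_le_middle
        (n + r.1.toNat + r.2.2.1.2.toNat - wt r.2.1 - cnt r.2.2.1.1) (m + 1))
      rw [← card_cnt]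
      refine card_le_card_of_injOn (fun q => q.1.1) (fun q hq => ?_) fun q hq q' hq' e => ?_
      · simp only [T, coe_filter, mem_filter, mem_product, Set.mem_ofPred_eq] at hq ⊢
        obtain ⟨⟨a, b⟩, rfl⟩ := hq
        exact ⟨a.1.1, by simp only; omega⟩
      · obtain ⟨a, b⟩ := Prod.mk.inj ((mem_filter.1 hq).2.trans (mem_filter.1 hq').2.symm)
        exact Prod.ext (Prod.ext e a) b
    · simp only [card_product, card_univ, Fintype.card_bool, card_all, Int.card_Ico]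
      rw [show ((2 * m + 3 : ℤ) - 0).toNat = 2 * m + 3 by omega, pow_succ]
      nlinarith [Nat.mul_le_mul_right (2 ^ m * (2 * m + 3)) hK]
  let Ω := (univ : Finset (Equiv.Perm (Fin h))) ×ˢ range (m + 2) ×ˢ range (m + 2)
  have s1 : ∑ ω ∈ Ω, #(V.image (key m k ω)) ≤ Fintype.card (Equiv.Perm (Fin h)) * #T := by
    rw [← card_sigma, ← card_univ, ← card_product]
    refine card_le_card_of_injOn (fun q => (q.1.1, q.2)) ?_ ?_
    · rintro ⟨⟨σ, a, b⟩, q⟩ hq
      simp only [Ω, coe_sigma, Set.mem_sigma_iff, mem_coe, mem_product, mem_univ, true_and,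
        mem_range, mem_image] at hq
      obtain ⟨⟨ha, hb⟩, x, hx, rfl⟩ := hq
      obtain ⟨x1, x2, -, x3⟩ := hV x hx
      obtain ⟨p1, -, p2, -⟩ := k1 a ha _ x1
      obtain ⟨q1, -, q2, -⟩ := k1 b hb _ x2
      simp only [T, coe_product, Set.mem_prod, mem_coe, mem_univ, true_and, mem_filter,
        mem_product, key, mem_all, p1, q1, and_true, mem_Ico, wt_ko]
      refine ⟨⟨mK _ (by simp), Int.emod_nonneg _ (by omega), Int.emod_lt_of_pos _ (by omega)⟩, ?_⟩
      simp only [word, glue, cnt_append] at x3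
      rw [wt, cnt_perm, cnt_perm]
      omega
    · rintro ⟨⟨σ, a, b⟩, q⟩ hq ⟨⟨σ', a', b'⟩, q'⟩ hq' e
      simp only [Ω, coe_sigma, Set.mem_sigma_iff, mem_coe, mem_product, mem_univ, true_and,
        mem_range, mem_image, Prod.mk.injEq] at hq hq' e
      obtain ⟨rfl, rfl⟩ := e
      obtain ⟨⟨ha, hb⟩, x, hx, e⟩ := hq
      obtain ⟨⟨ha', hb'⟩, y, hy, e'⟩ := hq'
      have f := e.trans e'.symm
      simp only [key, Prod.mk.injEq] at f
      obtain rfl : a = a' := by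
        rw [← (k1 a ha _ (hV x hx).1).2.1, f.1, (k1 a' ha' _ (hV y hy).1).2.1]
      obtain rfl : b = b' := by
        rw [← (k1 b hb _ (hV x hx).2.1).2.1, f.2.2.1, (k1 b' hb' _ (hV y hy).2.1).2.1]
      rfl
  have s2 : ℓ * ∑ ω ∈ Ω, #{p ∈ V ×ˢ V | p.1 ≠ p.2 ∧ key m k ω p.1 = key m k ω p.2} ≤
      #{p ∈ V ×ˢ V | p.1 ≠ p.2 ∧ Cmp p.1 p.2} *
        (Fintype.card (Equiv.Perm (Fin h)) * (2 * (m + 2))) := by
    have e : ∀ ω ∈ Ω, #{p ∈ V ×ˢ V | p.1 ≠ p.2 ∧ key m k ω p.1 = key m k ω p.2} =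
        ∑ p ∈ {p ∈ V ×ˢ V | p.1 ≠ p.2 ∧ Cmp p.1 p.2},
          if key m k ω p.1 = key m k ω p.2 then 1 else 0 := by
      rintro ⟨σ, a, b⟩ hω
      simp only [Ω, mem_product, mem_range] at hω
      rw [← card_filter, filter_filter]
      refine congrArg _ (filter_congr fun p hp => ⟨fun c => ⟨⟨c.1, ?_⟩, c.2⟩,
        fun c => ⟨c.1.1, c.2⟩⟩)
      have x := hV _ (mem_product.1 hp).1
      have y := hV _ (mem_product.1 hp).2
      exact (key_eq k1 k2 hm hω.2.1 hω.2.2 x.1 x.2.1 y.1 y.2.1 c.1 c.2).1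
    rw [sum_congr rfl e, sum_comm, mul_sum, ← smul_eq_mul]
    refine sum_le_card_nsmul _ _ _ fun p hp => ?_
    obtain ⟨hp, c, -⟩ := mem_filter.1 hp
    have x := hV _ (mem_product.1 hp).1
    have y := hV _ (mem_product.1 hp).2
    rw [← card_filter]
    exact pair_bound k1 k2 k3 hm hℓ x.1 x.2.1 y.1 y.2.1 c x.2.2.1 y.2.2.1
  have s3 := sum_le_sum (s := Ω) fun ω _ => img V (key m k ω)
  rw [sum_add_distrib, sum_const, smul_eq_mul] at s3
  have s4 : #Ω = Fintype.card (Equiv.Perm (Fin h)) * (m + 2) ^ 2 := by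
    simp only [Ω, card_product, card_univ, card_range, sq]
  rw [s4] at s3
  refine Nat.le_of_mul_le_mul_left ?_ (Fintype.card_pos (α := Equiv.Perm (Fin h)))
  have s5 := Nat.mul_le_mul_left ℓ (s3.trans (Nat.add_le_add_right
    (s1.trans (Nat.mul_le_mul_left _ hT)) _))
  nlinarith

end Pool.Agent.H.MP_75c11f_co
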