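import Mathlib

set_option autoImplicit false

namespace Pool.Agent.H.MP_75c11f_co

lemma cb1 (k : ℕ) : (2 * k + 1) * k.centralBinom ^ 2 ≤ 16 ^ k := by
  induction k with
  | zero => simp
  | succ k ih =>
    have e := congrArg (· ^ 2) (Nat.succ_mul_centralBinom_succ k)
    simp only [mul_pow] at e
    refine Nat.le_of_mul_le_mul_left (c := (k + 1) ^ 2) ?_ (by positivity)
    rw [mul_left_comm, e, pow_succ 16]
    nlinarith [Nat.mul_le_mul_left ((2 * k + 3) * 4 * (2 * k + 1)) ih, Nat.zero_le (16 ^ k)]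

lemma cb2 (k : ℕ) : 16 ^ (k + 1) ≤ 4 * (k + 1) * (k + 1).centralBinom ^ 2 := by
  induction k with
  | zero => decide
  | succ k ih =>
    have e := congrArg (· ^ 2) (Nat.succ_mul_centralBinom_succ (k + 1))
    simp only [mul_pow] at e
    refine Nat.le_of_mul_le_mul_left (c := k + 1 + 1) ?_ (by positivity)
    rw [show (k + 1 + 1) * (4 * (k + 1 + 1) * (k + 1 + 1).centralBinom ^ 2) =
      4 * ((k + 1 + 1) ^ 2 * (k + 1 + 1).centralBinom ^ 2) by ring, e, pow_succ 16]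
    nlinarith [Nat.mul_le_mul_left (16 * (k + 2)) ih, Nat.zero_le ((k + 1).centralBinom ^ 2)]

lemma cb3 (n : ℕ) : n * n.choose (n / 2) ^ 2 ≤ 4 ^ n := by
  have h := cb1 (n / 2)
  rw [Nat.centralBinom_eq_two_mul_choose, show 16 = 4 ^ 2 by norm_num, ← pow_mul] at h
  obtain ⟨k, rfl | rfl⟩ := Nat.even_or_odd' n
  · rw [Nat.mul_div_cancel_left _ two_pos] at h ⊢
    nlinarith [Nat.zero_le ((2 * k).choose k ^ 2)]
  · rw [show (2 * k + 1) / 2 = k by omega] at h ⊢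
    have a : (2 * k + 1).choose k ≤ 2 * (2 * k).choose k := by
      have b := Nat.choose_le_middle (k + 1) (2 * k)
      rw [Nat.mul_div_cancel_left _ two_pos] at b
      rw [← Nat.choose_symm_half, Nat.choose_succ_succ']
      omega
    rw [pow_succ 4]
    nlinarith [Nat.mul_le_mul_left (2 * k + 1) (Nat.pow_le_pow_left a 2)]

lemma ev : ∃ h₀ : ℕ, ∀ h, h₀ ≤ h → 16 * (3 * h) ^ 4 * 49 ^ h * 4 ^ (h / 10) ≤ 64 ^ h := by
  have t := tendsto_pow_const_mul_const_pow_of_abs_lt_one 4 (r := 49 * (23 / 20) / 64)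
    (by norm_num [abs_lt])
  obtain ⟨h₀, hh⟩ := Filter.eventually_atTop.1
    (t.eventually (gt_mem_nhds (show (0 : ℝ) < 1 / 1296 by positivity)))
  refine ⟨h₀, fun h a => ?_⟩
  have b := hh h a
  have c : (4 : ℝ) ^ (h / 10) ≤ (23 / 20) ^ h :=
    calc (4 : ℝ) ^ (h / 10) ≤ ((23 / 20) ^ 10) ^ (h / 10) := by gcongr; norm_num
      _ ≤ _ := by
        rw [← pow_mul]
        exact pow_le_pow_right₀ (by norm_num) (by omega)
  rw [div_pow, mul_pow, mul_div_assoc', div_lt_iff₀ (by positivity)] at b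
  have d := mul_le_mul_of_nonneg_left c (show (0 : ℝ) ≤ h ^ 4 * 49 ^ h by positivity)
  have : (16 * (3 * h) ^ 4 * 49 ^ h * 4 ^ (h / 10) : ℝ) ≤ 64 ^ h := by linarith
  exact_mod_cast this

lemma tb (h m : ℕ) (h0 : 1 ≤ h) (h1 : h ≤ m) (h2 : m ≤ h + 1) :
    (4 * ((m + 1).choose ((m + 1) / 2) * (16 * (2 * h).choose h * 2 ^ m * (2 * m + 3)))) ^ 2 *
      (h + m) ^ 3 ≤ (m + 2) ^ 4 * (2000 * (2 * (h + m)).choose (h + m)) ^ 2 := by
  have c1 := cb1 h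
  have c2 := cb2 (h + m - 1)
  have c3 := cb3 (m + 1)
  rw [Nat.sub_add_cancel (by omega)] at c2
  rw [Nat.centralBinom_eq_two_mul_choose] at c1 c2
  have p : 4 ^ (m + 1) * 16 ^ h * (2 ^ m) ^ 2 = 4 * 16 ^ (h + m) := by
    rw [← pow_mul, mul_comm m, pow_mul, pow_add 16, show (16 : ℕ) ^ m = 4 ^ m * 4 ^ m from mul_pow 4 4 m]
    norm_num
    ring
  have a1 : h + m ≤ 2 * h + 1 := by omega
  have a2 : h + m ≤ 2 * (m + 1) := by omega
  have a3 : 2 * m + 3 ≤ 2 * (m + 2) := by omega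
  generalize (m + 1).choose ((m + 1) / 2) = a at *
  generalize (2 * h).choose h = b at *
  generalize (2 * (h + m)).choose (h + m) = C at *
  calc _ = 4096 * (h + m) * (2 * m + 3) ^ 2 * (a ^ 2 * (h + m) * (b ^ 2 * (h + m)) *
        (2 ^ m) ^ 2) := by ring
    _ ≤ 4096 * (h + m) * (2 * (m + 2)) ^ 2 * (a ^ 2 * (2 * (m + 1)) * (b ^ 2 * (2 * h + 1)) *
        (2 ^ m) ^ 2) := by gcongr
    _ = 32768 * (h + m) * (m + 2) ^ 2 * ((m + 1) * a ^ 2 * ((2 * h + 1) * b ^ 2) *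
        (2 ^ m) ^ 2) := by ring
    _ ≤ 32768 * (h + m) * (m + 2) ^ 2 * (4 ^ (m + 1) * 16 ^ h * (2 ^ m) ^ 2) := by gcongr
    _ ≤ 32768 * (h + m) * (m + 2) ^ 2 * (4 * (4 * (h + m) * C ^ 2)) := by rw [p]; gcongr
    _ = 524288 * (h + m) ^ 2 * (m + 2) ^ 2 * C ^ 2 := by ring
    _ ≤ 524288 * (2 * (m + 2)) ^ 2 * (m + 2) ^ 2 * C ^ 2 := by gcongr; omega
    _ ≤ _ := by nlinarith [Nat.zero_le ((m + 2) ^ 4 * C ^ 2)]

lemma bb (h m B : ℕ) (h0 : 1 ≤ h) (h2 : m ≤ h + 1)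
    (e : 16 * (3 * h) ^ 4 * 49 ^ h * 4 ^ (h / 10) ≤ 64 ^ h)
    (hB : B * 2 ^ h ≤ 7 ^ h * 2 ^ (h / 10)) :
    (2 * (B * (2 ^ m * 2 ^ m))) ^ 2 * (h + m) ^ 3 ≤ (2 * (h + m)).choose (h + m) ^ 2 := by
  have c2 := cb2 (h + m - 1)
  rw [Nat.sub_add_cancel (by omega), Nat.centralBinom_eq_two_mul_choose] at c2
  refine Nat.le_of_mul_le_mul_left (c := 4 * (h + m)) (le_trans ?_ c2) (by omega)
  refine Nat.le_of_mul_le_mul_left (c := (2 ^ h) ^ 2) ?_ (by positivity)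
  calc _ = 16 * (h + m) ^ 4 * (B * 2 ^ h) ^ 2 * (2 ^ m) ^ 4 := by ring
    _ ≤ 16 * (3 * h) ^ 4 * (7 ^ h * 2 ^ (h / 10)) ^ 2 * (2 ^ m) ^ 4 := by gcongr; omega
    _ = 16 * (3 * h) ^ 4 * 49 ^ h * 4 ^ (h / 10) * (2 ^ m) ^ 4 := by
      rw [mul_pow (7 ^ h), ← pow_mul 7, ← pow_mul 2 (h / 10), mul_comm h 2, mul_comm (h / 10) 2,
        pow_mul, pow_mul]
      norm_num
      ring
    _ ≤ 64 ^ h * (2 ^ m) ^ 4 := by gcongr
    _ = _ := by
      rw [show (64 : ℕ) = 2 ^ 6 by norm_num, show (16 : ℕ) = 2 ^ 4 by norm_num]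
      simp only [← pow_mul, ← pow_add]
      congr 1
      ring

end Pool.Agent.H.MP_75c11f_co
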